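import Pool.Agent.Helper77.GP.Haus
import Pool.Agent.Helper18.GP.Planar

/-!
MP_e46579_co: the Steiner ratio of the plane (the Gilbert-Pollak conjecture).
-/

namespace Pool.Agent.Results.MP_e46579_co.GilbertPollak

open Pool.Agent.Helper77

/-- The Steiner ratio of the plane is `√3 / 2`. -/
theorem result : Steiner.steinerRatio 2 = ENNReal.ofReal (√3 / 2) :=
  GP.haus Pool.Agent.Helper18.GP.tPlanar

end Pool.Agent.Results.MP_e46579_co.GilbertPollak
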