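import Pool.Agent.Helper82.SG.Fin

/-!
MP_e46579_co: effective determination of the Steiner ratio `ρ_d` of `ℝ^d`, for every `d ≥ 2`, by
finite minima over subsets of lattice boxes.
-/

namespace Pool.Agent.Results.MP_e46579_co.GridApproximation

open Pool.Agent.Helper77.Steiner
open scoped ENNReal

/-- `{0, .., M}^d`, as a finite set of points of `ℝ^d`. -/
noncomputable def box (d M : ℕ) : Finset (EuclideanSpace ℝ (Fin d)) :=
  (Fintype.piFinset fun _ : Fin d => Finset.range (M + 1)).image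
    fun p => WithLp.toLp 2 fun i => (p i : ℝ)

/-- The Steiner ratio of the box: the minimum of `L_S(A) / L_M(A)` over all `A ⊆ {0, .., M}^d` with
`|A| ≥ 2`. -/
noncomputable def boxSteinerRatio (d M : ℕ) : ℝ≥0∞ :=
  ⨅ (A : Finset (EuclideanSpace ℝ (Fin d))) (_ : 2 ≤ A.card) (_ : A ⊆ box d M),
    steinerLen A / ENNReal.ofReal (mstLen A)

/-- `R_d(M)`: the minimum of `L_M(B) / L_M(A)` over all `A ⊆ B ⊆ {0, .., M}^d` with `|A| ≥ 2`. -/
noncomputable def boxRatio (d M : ℕ) : ℝ≥0∞ :=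
  ⨅ (A : Finset (EuclideanSpace ℝ (Fin d))) (B : Finset (EuclideanSpace ℝ (Fin d)))
    (_ : 2 ≤ A.card) (_ : A ⊆ B) (_ : B ⊆ box d M),
    ENNReal.ofReal (mstLen B) / ENNReal.ofReal (mstLen A)

/-- For every `d ≥ 2` and `M ≥ d`:
`ρ_d ≤ (Steiner ratio of {0, .., M}^d) ≤ R_d(M) ≤ (1 + 200 / log M) ρ_d`. -/
theorem result (d M : ℕ) (hd : 2 ≤ d) (hM : d ≤ M) :
    steinerRatio d ≤ boxSteinerRatio d M ∧ boxSteinerRatio d M ≤ boxRatio d M ∧
      boxRatio d M ≤ ENNReal.ofReal (1 + 200 / Real.log M) * steinerRatio d := by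
  refine ⟨?_, ?_, (Pool.Agent.Helper82.SG.fFIN d M hd hM).2⟩
  · unfold boxSteinerRatio steinerRatio steinerRatioOf
    exact le_iInf fun A => le_iInf fun hA => le_iInf fun _ => iInf_le_of_le A (iInf_le_of_le hA le_rfl)
  · unfold boxRatio boxSteinerRatio
    refine le_iInf fun A => le_iInf fun B => le_iInf fun hA => le_iInf fun hAB =>
      le_iInf fun hB => ?_
    have hAne : A.Nonempty := Finset.card_pos.1 (by omega)
    obtain ⟨l, hl, hnet⟩ := Pool.Agent.Helper82.SG.fLNT.1 B (hAne.mono hAB)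
    have h1 : steinerLen A ≤ ENNReal.ofReal (mstLen B) :=
      (Pool.Agent.Helper82.SG.fHAU A B l hnet hAB).trans (ENNReal.ofReal_le_ofReal hl)
    exact iInf_le_of_le A (iInf_le_of_le hA (iInf_le_of_le (hAB.trans hB)
      (ENNReal.div_le_div_right h1 _)))

end Pool.Agent.Results.MP_e46579_co.GridApproximation
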