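import Pool.Agent.Helper19.SR.Fin

/-!
MP_e46579_co: the Steiner ratio of `ℝ^d` converges to `√3 / (4 - √2)` at a polynomial rate.
-/

namespace Pool.Agent.Results.MP_e46579_co.PolynomialRate

open Pool.Agent.Helper77

/-- The Steiner ratio `ρ_d` lies between `√3 / (4 - √2) (1 + 10⁻⁹ d^(-3/2))` and
`√3 / (4 - √2) (1 + 128 d^(-4/3))` for all `d ≥ 2`. -/
theorem result :
    ∀ d : ℕ, 2 ≤ d →
      ENNReal.ofReal (√3 / (4 - √2) * (1 + 1 / 10 ^ 9 * (d : ℝ) ^ (-(3 / 2) : ℝ))) ≤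
        Steiner.steinerRatio d ∧
      Steiner.steinerRatio d ≤
        ENNReal.ofReal (√3 / (4 - √2) * (1 + 128 * (d : ℝ) ^ (-(4 / 3) : ℝ))) := by
  intro d hd
  refine ⟨?_, Helper19.SR.fUpp d (by omega)⟩
  have h := Helper19.SR.fLow d hd
  have e : Helper19.SR.eh / 10 = 1 / 10 ^ 9 := by
    unfold Helper19.SR.eh
    norm_num
  rw [e] at h
  exact h

end Pool.Agent.Results.MP_e46579_co.PolynomialRate
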