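import Pool.Agent.Helper77.ST.Final

/-!
MP_e46579_co: the dimension-free lower bound `√3 / (4 - √2)` for the Steiner ratio of `ℝ^d`, and
its sharpness as `d → ∞`.
-/

namespace Pool.Agent.Results.MP_e46579_co.RatioLimit

open Filter Topology Pool.Agent.Helper77

/-- `ρ_d ≥ √3 / (4 - √2) = 0.66984…` for every `d`, and `ρ_d → √3 / (4 - √2)` as `d → ∞`. -/
theorem result :
    (∀ d : ℕ, ENNReal.ofReal (√3 / (4 - √2)) ≤ Steiner.steinerRatio d) ∧
      Tendsto Steiner.steinerRatio atTop (𝓝 (ENNReal.ofReal (√3 / (4 - √2)))) :=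
  ⟨fun _ => Steiner.le_steinerRatioOf, Steiner.steinerRatio_tendsto⟩

end Pool.Agent.Results.MP_e46579_co.RatioLimit
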